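import Pool.Agent.H27.HB.TF

/-!
# Row SEP: the moments determine the function
-/

set_option autoImplicit false
set_option linter.unusedSectionVars false

namespace Pool.Agent.H2.HB
open MeasureTheory Set Filter Topology Pool.Agent.H80.HS Pool.Agent.H93.HQ Pool.Agent.H27.HB
open BoundedContinuousFunction
open scoped ContDiff ENNReal ComplexConjugate

section abstract

variable {E : Type} [MeasurableSpace E] [PseudoEMetricSpace E] [BorelSpace E] [CompleteSpace E]
  [SecondCountableTopology E] {μ : Measure E}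

theorem int_density {ρ : E → ℝ} (hρ : Integrable ρ μ) (g : E →ᵇ ℂ) :
    ∫ x, g x ∂(μ.withDensity fun z => ENNReal.ofReal (ρ z)) =
      ∫ x, ((max (ρ x) 0 : ℝ) : ℂ) * g x ∂μ := by
  rw [integral_withDensity_eq_integral_toReal_smul₀ hρ.aestronglyMeasurable.aemeasurable.ennreal_ofReal
    (Eventually.of_forall fun _ => ENNReal.ofReal_lt_top)]
  refine integral_congr_ae (Eventually.of_forall fun x => ?_)
  show (ENNReal.ofReal (ρ x)).toReal • g x = _
  rw [ENNReal.toReal_ofReal']
  exact (Complex.real_smul).symm ▸ rfl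

theorem fin_density {ρ : E → ℝ} (hρ : Integrable ρ μ) :
    IsFiniteMeasure (μ.withDensity fun z => ENNReal.ofReal (ρ z)) :=
  isFiniteMeasure_withDensity_ofReal hρ.2

theorem int_mul {ρ : E → ℝ} (hρ : Integrable ρ μ) (g : E →ᵇ ℂ) :
    Integrable (fun x => ((ρ x : ℝ) : ℂ) * g x) μ :=
  hρ.ofReal.mul_bdd g.continuous.measurable.aestronglyMeasurable
    (Eventually.of_forall fun x => g.norm_coe_le_norm x)

theorem sep_abstract {ρ : E → ℝ} (hρ : Integrable ρ μ) {A : StarSubalgebra ℂ (E →ᵇ ℂ)}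
    (hA : (A.map (toContinuousMapStarₐ ℂ)).SeparatesPoints)
    (h : ∀ g ∈ A, ∫ z, (ρ z : ℂ) * g z ∂μ = 0) : ρ =ᵐ[μ] 0 := by
  have := fin_density hρ
  have := fin_density hρ.neg
  have h1 : (μ.withDensity fun z => ENNReal.ofReal (ρ z)) =
      μ.withDensity fun z => ENNReal.ofReal ((-ρ) z) := by
    refine ext_of_forall_mem_subalgebra_integral_eq_of_pseudoEMetric_complete_countable hA
      fun g hg => ?_
    rw [int_density hρ, int_density hρ.neg, ← sub_eq_zero, ← integral_sub]
    · rw [← h g hg]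
      refine integral_congr_ae (Eventually.of_forall fun x => ?_)
      show ((max (ρ x) 0 : ℝ) : ℂ) * g x - ((max (-ρ x) 0 : ℝ) : ℂ) * g x = _
      rw [← sub_mul, ← Complex.ofReal_sub]
      congr 2
      rcases le_total 0 (ρ x) with h | h
      · rw [max_eq_left h, max_eq_right (by linarith)]
        ring
      · rw [max_eq_right h, max_eq_left (by linarith)]
        ring
    · exact int_mul hρ.pos_part g
    · exact int_mul hρ.neg.pos_part g
  have h2 := (withDensity_eq_iff hρ.aestronglyMeasurable.aemeasurable.ennreal_ofReal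
    hρ.neg.aestronglyMeasurable.aemeasurable.ennreal_ofReal
    hρ.lintegral_lt_top.ne).1 h1
  filter_upwards [h2] with x hx
  have hx' : ENNReal.ofReal (ρ x) = ENNReal.ofReal (-ρ x) := hx
  show ρ x = 0
  by_contra hne
  rcases lt_or_gt_of_ne hne with h | h
  · rw [ENNReal.ofReal_of_nonpos h.le] at hx'
    have := ENNReal.ofReal_pos.2 (neg_pos.2 h)
    rw [← hx'] at this
    exact lt_irrefl _ this
  · rw [ENNReal.ofReal_of_nonpos (neg_nonpos.2 h.le)] at hx'
    have := ENNReal.ofReal_pos.2 h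
    rw [hx'] at this
    exact lt_irrefl _ this

end abstract

section concrete

variable {n : ℕ}

theorem sq_nonneg' (z : H n) : 0 ≤ sq z := by
  unfold Pool.Agent.H93.HQ.sq
  positivity

theorem ww_pos (z : H n) : 0 < ww z := by
  have := sq_nonneg' z
  unfold ww
  positivity

theorem u0_pos (z : H n) : 0 < u0 n z := Real.rpow_pos_of_pos (ww_pos z) _

theorem nu_re (z : H n) : (nu z).re = 1 + sq z := rfl

theorem one_le_norm_nu (z : H n) : 1 + sq z ≤ ‖nu z‖ := by
  rw [← nu_re]
  exact le_trans (le_abs_self _) (Complex.abs_re_le_norm _)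

theorem norm_nu_pos (z : H n) : 0 < ‖nu z‖ := by
  have := one_le_norm_nu z
  have := sq_nonneg' z
  linarith

theorem nu_ne (z : H n) : nu z ≠ 0 := norm_pos_iff.1 (norm_nu_pos z)

theorem cont_sq : Continuous (sq : H n → ℝ) := by
  unfold Pool.Agent.H93.HQ.sq
  fun_prop

theorem cont_nu : Continuous (nu : H n → ℂ) := by
  have h : (nu : H n → ℂ) = fun z => ((1 + sq z : ℝ) : ℂ) + ((-z.2.2 : ℝ) : ℂ) * Complex.I := by
    funext z
    apply Complex.ext <;> simp [nu]
  rw [h]
  have := cont_sq (n := n)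
  fun_prop

theorem cont_zc (j : Fin n) : Continuous (zc j : H n → ℂ) := by
  have h : (zc j : H n → ℂ) = fun z => ((z.1 j : ℝ) : ℂ) + ((z.2.1 j : ℝ) : ℂ) * Complex.I := by
    funext z
    apply Complex.ext <;> simp [zc]
  rw [h]
  fun_prop

theorem norm_zc_le (j : Fin n) (z : H n) : ‖zc j z‖ ^ 2 ≤ sq z := by
  have h1 : ‖zc j z‖ ^ 2 = z.1 j ^ 2 + z.2.1 j ^ 2 := by
    rw [Complex.sq_norm, Complex.normSq_apply]
    show z.1 j * z.1 j + z.2.1 j * z.2.1 j = _
    ring
  have h2 : z.1 j ^ 2 ≤ ‖z.1‖ ^ 2 := by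
    rw [EuclideanSpace.norm_sq_eq]
    refine le_trans ?_ (Finset.single_le_sum (f := fun i => ‖z.1 i‖ ^ 2)
      (fun i _ => by positivity) (Finset.mem_univ j))
    rw [Real.norm_eq_abs, sq_abs]
  have h3 : z.2.1 j ^ 2 ≤ ‖z.2.1‖ ^ 2 := by
    rw [EuclideanSpace.norm_sq_eq]
    refine le_trans ?_ (Finset.single_le_sum (f := fun i => ‖z.2.1 i‖ ^ 2)
      (fun i _ => by positivity) (Finset.mem_univ j))
    rw [Real.norm_eq_abs, sq_abs]
  rw [h1]
  unfold Pool.Agent.H93.HQ.sq
  linarith

/-- `1 / ν` -/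
noncomputable def m0 : H n →ᵇ ℂ :=
  ofNormedAddCommGroup (fun z => (nu z)⁻¹) (cont_nu.inv₀ nu_ne) 1 fun z => by
    rw [norm_inv]
    have := one_le_norm_nu z
    have := sq_nonneg' z
    exact inv_le_one_of_one_le₀ (by linarith)

/-- `z_j / ν` -/
noncomputable def mj (j : Fin n) : H n →ᵇ ℂ :=
  ofNormedAddCommGroup (fun z => zc j z * (nu z)⁻¹) ((cont_zc j).mul (cont_nu.inv₀ nu_ne)) 1
    fun z => by
      rw [norm_mul, norm_inv, ← div_eq_mul_inv, div_le_one (norm_nu_pos z)]
      have h1 := one_le_norm_nu z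
      have h2 := norm_zc_le j z
      have h3 := norm_nonneg (zc j z)
      nlinarith [sq_nonneg (‖zc j z‖ - 1)]

/-- the monomials -/
noncomputable def mon (x : (Fin n → ℕ) × (Fin n → ℕ) × ℕ × ℕ) : H n →ᵇ ℂ :=
  (∏ j, mj j ^ x.1 j) * (∏ j, star (mj j) ^ x.2.1 j) * m0 ^ x.2.2.1 * star m0 ^ x.2.2.2

theorem mon_mul (x y : (Fin n → ℕ) × (Fin n → ℕ) × ℕ × ℕ) : mon x * mon y = mon (x + y) := by
  unfold mon
  simp only [Prod.fst_add, Prod.snd_add, Pi.add_apply, pow_add, Finset.prod_mul_distrib]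
  ring

theorem mon_star (x : (Fin n → ℕ) × (Fin n → ℕ) × ℕ × ℕ) :
    star (mon x) = mon (x.2.1, x.1, x.2.2.2, x.2.2.1) := by
  unfold mon
  simp only [star_mul', star_pow, star_star, star_prod]
  ring

theorem mon_zero : mon (0 : (Fin n → ℕ) × (Fin n → ℕ) × ℕ × ℕ) = 1 := by
  unfold mon
  simp

/-- the span of the monomials -/
noncomputable def AA (n : ℕ) : StarSubalgebra ℂ (H n →ᵇ ℂ) where
  carrier := Submodule.span ℂ (Set.range (mon (n := n)))
  mul_mem' := by
    intro a b ha hb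
    have h : a * b ∈ Submodule.span ℂ (Set.range (mon (n := n))) *
        Submodule.span ℂ (Set.range (mon (n := n))) := Submodule.mul_mem_mul ha hb
    rw [Submodule.span_mul_span] at h
    refine Submodule.span_mono ?_ h
    rintro _ ⟨_, ⟨x, rfl⟩, _, ⟨y, rfl⟩, rfl⟩
    exact ⟨x + y, (mon_mul x y).symm⟩
  one_mem' := Submodule.subset_span ⟨0, mon_zero⟩
  add_mem' := fun {_ _} ha hb => Submodule.add_mem _ ha hb
  zero_mem' := Submodule.zero_mem _
  algebraMap_mem' := by
    intro r
    rw [Algebra.algebraMap_eq_smul_one]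
    exact Submodule.smul_mem _ r (Submodule.subset_span ⟨0, mon_zero⟩)
  star_mem' := by
    intro a ha
    refine Submodule.span_induction (p := fun a _ => star a ∈
      Submodule.span ℂ (Set.range (mon (n := n)))) ?_ ?_ ?_ ?_ ha
    · rintro _ ⟨x, rfl⟩
      rw [mon_star]
      exact Submodule.subset_span ⟨_, rfl⟩
    · rw [star_zero]
      exact Submodule.zero_mem _
    · intro x y _ _ hx hy
      rw [star_add]
      exact Submodule.add_mem _ hx hy
    · intro c x _ hx
      rw [star_smul]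
      exact Submodule.smul_mem _ _ hx

theorem m0_mem : (m0 : H n →ᵇ ℂ) ∈ AA n := by
  refine Submodule.subset_span ⟨(0, 0, 1, 0), ?_⟩
  unfold mon
  simp

theorem mj_mem (j : Fin n) : (mj j : H n →ᵇ ℂ) ∈ AA n := by
  refine Submodule.subset_span ⟨(Pi.single j 1, 0, 0, 0), ?_⟩
  unfold mon
  have h : ∏ i, (mj i : H n →ᵇ ℂ) ^ (Pi.single j 1 : Fin n → ℕ) i = mj j := by
    rw [Finset.prod_eq_single j]
    · rw [Pi.single_eq_same, pow_one]
    · intro i _ hi
      rw [Pi.single_eq_of_ne hi, pow_zero]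
    · intro h
      exact absurd (Finset.mem_univ _) h
  show (∏ i, (mj i : H n →ᵇ ℂ) ^ (Pi.single j 1 : Fin n → ℕ) i) * _ * _ * _ = _
  rw [h]
  simp

theorem sep_AA : ((AA n).map (toContinuousMapStarₐ ℂ)).SeparatesPoints := by
  intro x y hxy
  by_contra h
  push Not at h
  have h' : ∀ g ∈ AA n, g x = g y := fun g hg => h g ⟨_, ⟨g, hg, rfl⟩, rfl⟩
  have h1 : (nu x)⁻¹ = (nu y)⁻¹ := h' _ m0_mem
  have h2 : ∀ j, zc j x * (nu x)⁻¹ = zc j y * (nu y)⁻¹ := fun j => h' _ (mj_mem j)
  have h3 : nu x = nu y := inv_injective h1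
  have h4 : ∀ j, zc j x = zc j y := by
    intro j
    have h5 := h2 j
    rw [h1] at h5
    exact mul_right_cancel₀ (inv_ne_zero (nu_ne y)) h5
  apply hxy
  refine Prod.ext ?_ (Prod.ext ?_ ?_)
  · ext j
    exact congrArg Complex.re (h4 j)
  · ext j
    exact congrArg Complex.im (h4 j)
  · have := congrArg Complex.im h3
    have h5 : -x.2.2 = -y.2.2 := this
    exact neg_injective h5

/-- evaluation -/
noncomputable def evh (z : H n) : (H n →ᵇ ℂ) →+* ℂ where
  toFun g := g z
  map_one' := rfl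
  map_mul' _ _ := rfl
  map_zero' := rfl
  map_add' _ _ := rfl

theorem mon_apply (x : (Fin n → ℕ) × (Fin n → ℕ) × ℕ × ℕ) (z : H n) :
    (u0 n z : ℂ) * mon x z =
      EE x.1 x.2.1 (∑ j, x.1 j + x.2.2.1) (∑ j, x.2.1 j + x.2.2.2) z := by
  have h1 : mon x z = (∏ j, (zc j z * (nu z)⁻¹) ^ x.1 j) *
      (∏ j, ((starRingEnd ℂ) (zc j z * (nu z)⁻¹)) ^ x.2.1 j) * ((nu z)⁻¹) ^ x.2.2.1 *
      ((starRingEnd ℂ) (nu z)⁻¹) ^ x.2.2.2 := by
    show evh z (mon x) = _
    unfold mon
    rw [map_mul, map_mul, map_mul, map_prod, map_prod, map_pow, map_pow]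
    simp only [map_pow]
    rfl
  rw [h1]
  unfold EE
  simp only [map_mul, mul_pow, Finset.prod_mul_distrib, Finset.prod_pow_eq_pow_sum, map_inv₀,
    pow_add]
  simp only [inv_pow]
  have h2 := nu_ne z
  have h3 : (starRingEnd ℂ) (nu z) ≠ 0 := by
    rw [Ne, map_eq_zero]
    exact h2
  field_simp

/-- SEP -/
theorem pf_SEP (hWIN : T_WIN) : T_SEP := by
  intro n hn f hf hmo
  have hn0 : (0 : ℝ) < n := by exact_mod_cast hn
  have hq : ps n 2 = (2 * n + 2) / n := by
    unfold ps
    rw [show (2 * (n : ℝ) + 2 - 2) = 2 * n by ring]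
    field_simp
  have hq0 : 0 < ps n 2 := by
    rw [hq]
    positivity
  have hpq : (ps n 2).HolderConjugate ((2 * n + 2) / (n + 2)) := by
    rw [Real.holderConjugate_iff]
    rw [hq]
    constructor
    · rw [lt_div_iff₀ hn0]
      linarith
    · field_simp
      ring
  have hf1 : Integrable (fun z => ‖f z‖ ^ ps n 2) := by
    have h := hf.integrable_norm_rpow (by simpa using hq0) ENNReal.ofReal_ne_top
    rwa [ENNReal.toReal_ofReal hq0.le] at h
  have hf2 : Integrable (fun z : H n => ww z ^ (-((n : ℝ) + 1))) :=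
    hWIN n ((n : ℝ) + 1) (by linarith)
  have hcw : Continuous (ww : H n → ℝ) := by
    unfold ww
    have := cont_sq (n := n)
    fun_prop
  have hcu : Continuous (u0 n) := by
    unfold u0
    exact hcw.rpow_const fun z => Or.inl (ww_pos z).ne'
  have hρ : Integrable (fun z => f z / ww z * u0 n z) := by
    refine (hf1.add hf2).mono' ?_ (Eventually.of_forall fun z => ?_)
    · exact ((hf.1.aemeasurable.div hcw.measurable.aemeasurable).mul
        hcu.measurable.aemeasurable).aestronglyMeasurable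
    · have h1 : ‖f z / ww z * u0 n z‖ = ‖f z‖ * (u0 n z / ww z) := by
        rw [norm_mul, norm_div, Real.norm_of_nonneg (ww_pos z).le,
          Real.norm_of_nonneg (u0_pos z).le]
        ring
      have h2 : (u0 n z / ww z) ^ (((2 : ℝ) * n + 2) / (n + 2)) = ww z ^ (-((n : ℝ) + 1)) := by
        have h3 : u0 n z / ww z = ww z ^ (-(n : ℝ) / 2 - 1) := by
          rw [Real.rpow_sub_one (ww_pos z).ne']
          rfl
        rw [h3, ← Real.rpow_mul (ww_pos z).le]
        congr 1
        field_simp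
        ring
      have h4 := Real.young_inequality_of_nonneg (norm_nonneg (f z))
        (div_nonneg (u0_pos z).le (ww_pos z).le) hpq
      rw [h1]
      refine le_trans h4 (add_le_add ?_ ?_)
      · exact div_le_self (Real.rpow_nonneg (norm_nonneg _) _) hpq.lt.le
      · rw [h2]
        exact div_le_self (Real.rpow_nonneg (ww_pos z).le _) hpq.symm.lt.le
  have hall : ∀ g ∈ AA n, ∫ z, ((f z / ww z * u0 n z : ℝ) : ℂ) * g z = 0 := by
    intro g hg
    refine Submodule.span_induction (p := fun g _ =>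
      ∫ z, ((f z / ww z * u0 n z : ℝ) : ℂ) * g z = 0) ?_ ?_ ?_ ?_ hg
    · rintro _ ⟨x, rfl⟩
      rw [← hmo x.1 x.2.1 (∑ j, x.1 j + x.2.2.1) (∑ j, x.2.1 j + x.2.2.2) (by omega) (by omega)]
      unfold mo
      refine integral_congr_ae (Eventually.of_forall fun z => ?_)
      show ((f z / ww z * u0 n z : ℝ) : ℂ) * mon x z = ((f z / ww z : ℝ) : ℂ) *
        EE x.1 x.2.1 (∑ j, x.1 j + x.2.2.1) (∑ j, x.2.1 j + x.2.2.2) z
      rw [← mon_apply, Complex.ofReal_mul]
      ring
    · simp
    · intro a b _ _ ha hb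
      have h1 := integral_add (int_mul hρ a) (int_mul hρ b)
      rw [ha, hb, add_zero] at h1
      rw [← h1]
      refine integral_congr_ae (Eventually.of_forall fun z => ?_)
      show _ * (a z + b z) = _
      ring
    · intro c a _ ha
      have h1 := integral_const_mul c (fun z => ((f z / ww z * u0 n z : ℝ) : ℂ) * a z)
        (μ := volume)
      rw [ha, mul_zero] at h1
      rw [← h1]
      refine integral_congr_ae (Eventually.of_forall fun z => ?_)
      show _ * (c * a z) = _
      ring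
  filter_upwards [sep_abstract hρ sep_AA hall] with z hz
  have hz' : f z / ww z * u0 n z = 0 := hz
  rcases mul_eq_zero.1 hz' with h | h
  · rcases div_eq_zero_iff.1 h with h | h
    · exact h
    · exact absurd h (ww_pos z).ne'
  · exact absurd h (u0_pos z).ne'

end concrete

end Pool.Agent.H2.HB
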